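import Pool.Agent.T9h80.GMin.Unique

set_option autoImplicit false

/-!
# `K(i, d-1)` is the only sphere in `S(i, d-1)` with its `g`-numbers

The number of missing faces of each size is determined by the face numbers; since no vertex is a
cone point, the missing faces must partition the vertex set.
-/

namespace Pool.Agent.Results.MP_94a3a7_co.UniqueMinimizer

open Pool.Agent.T9h80.GMin

/-- **Theorem.** Let `i ≥ 1` and `d = q i + r` with `1 ≤ r ≤ i`.  Every `ℤ/2`-homology
`(d-1)`-sphere `Δ` whose missing faces have dimension at most `i` and which satisfies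
`g_j(Δ) = g_j(K(i, d-1))` for all `0 ≤ j ≤ d/2` is isomorphic to `K(i, d-1)`. -/
theorem result (i d q r : ℕ) (hi : 1 ≤ i) (hr : 1 ≤ r) (hri : r ≤ i) (hd : d = q * i + r)
    (V : Type) [DecidableEq V] [Fintype V] (Δ : Cplx V) (hS : Δ.IsHomologySphere d)
    (hm : ∀ τ : Finset V, Δ.IsMissing τ → τ.card ≤ i + 1)
    (hg : ∀ j : ℕ, j ≤ d / 2 → Δ.g d j = (K q i r hi hr).g d j) :
    Δ.Iso (K q i r hi hr) :=
  iso_of_fNum_eq hi hr hri Δ hS hm (fNum_eq_of_g_eq Δ hi hr hd hS hg)

end Pool.Agent.Results.MP_94a3a7_co.UniqueMinimizer
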